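import Pool.Agent.MP6f388.Comb

set_option autoImplicit false
open scoped InnerProductSpace

namespace Pool.Agent.MP6f388

variable {H : Type*} [NormedAddCommGroup H] [InnerProductSpace ℝ H]

/-- Data: increasing finite-dimensional subspaces with coded nets. -/
structure NetData (V : ℕ → Submodule ℝ H) (dec : ℕ → H) (A : ℕ → Finset ℕ) : Prop where
  monoV : Monotone V
  dec0 : dec 0 = 0
  monoA : Monotone A
  zeroA : ∀ j, 0 ∈ A j
  decV : ∀ j, ∀ n ∈ A j, dec n ∈ V j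
  net : ∀ j, ∀ v ∈ V j, ∃ n ∈ A j, ‖v‖ / 2 ≤ ⟪dec n, v⟫_ℝ

lemma sum_mem_V {V : ℕ → Submodule ℝ H} (hV : Monotone V) {z : ℕ → H} (hz : ∀ j, z j ∈ V j)
    (p r : ℕ) : ∑ j ∈ Finset.Ico p r, z j ∈ V r := by
  refine Submodule.sum_mem _ fun j hj => ?_
  exact hV (Finset.mem_Ico.1 hj).2.le (hz j)

lemma piece {V : ℕ → Submodule ℝ H} [∀ j, FiniteDimensional ℝ (V j)] {dec : ℕ → H}
    {A : ℕ → Finset ℕ} (D : NetData V dec A)
    {z : ℕ → H} (hz : ∀ j, z j ∈ V j) {L : ℕ} {p r r' : ℕ} (hpr : p ≤ r) (hrr : r ≤ r')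
    (hL : r' ≤ L) {g : ℕ} {a c c0 θ : ℝ} (ha : 0 ≤ a) (hc : 0 ≤ c) (hc0 : 0 ≤ c0) (hθ : 0 ≤ θ)
    (hu : ∃ u, Code A (2 * g) p r u ∧ a / 2 ≤ val dec z L u)
    (hS : ‖∑ j ∈ Finset.Ico p r, z j‖ ≤ a + c + θ * √g)
    (hS' : ‖∑ j ∈ Finset.Ico r r', z j‖ ≤ θ + c0) :
    ∃ a', 0 ≤ a' ∧ (∃ u, Code A (2 * (g + 1)) p r' u ∧ a' / 2 ≤ val dec z L u) ∧
      ‖∑ j ∈ Finset.Ico p r', z j‖ ≤ a' + (c + c0) + θ * √((g + 1 : ℕ) : ℝ) := by
  obtain ⟨u, hu, hua⟩ := hu
  obtain ⟨x, hx, y, hy, hxy⟩ := (V r).exists_add_mem_mem_orthogonal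
    (∑ j ∈ Finset.Ico r r', z j)
  obtain ⟨n, hn, hnx⟩ := D.net r x hx
  have hinner : ⟪dec n, ∑ j ∈ Finset.Ico r r', z j⟫_ℝ = ⟪dec n, x⟫_ℝ := by
    rw [hxy, inner_add_right, Submodule.inner_right_of_mem_orthogonal (D.decV r n hn) hy, add_zero]
  have hcode := cc_code D.monoA D.zeroA r' hn
  refine ⟨a + ‖x‖, by positivity, ⟨_, (hu.add hcode hpr hrr).mono (by omega) le_rfl le_rfl, ?_⟩, ?_⟩
  · rw [val_add D.dec0 z L hu hcode, val_cc D.dec0 z n r hL, hinner]
    linarith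
  · have hsplit : ∑ j ∈ Finset.Ico p r', z j = (∑ j ∈ Finset.Ico p r, z j + x) + y := by
      rw [add_assoc, ← hxy, Finset.sum_Ico_consecutive _ hpr hrr]
    have hmem : ∑ j ∈ Finset.Ico p r, z j + x ∈ V r :=
      Submodule.add_mem _ (sum_mem_V D.monoV hz p r) hx
    have horth : ⟪∑ j ∈ Finset.Ico p r, z j + x, y⟫_ℝ = 0 :=
      Submodule.inner_right_of_mem_orthogonal hmem hy
    have hpyth : ‖∑ j ∈ Finset.Ico p r', z j‖ ^ 2
        = ‖∑ j ∈ Finset.Ico p r, z j + x‖ ^ 2 + ‖y‖ ^ 2 := by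
      rw [hsplit]
      have := norm_add_sq_eq_norm_sq_add_norm_sq_of_inner_eq_zero _ _ horth
      nlinarith [this]
    have hyle : ‖y‖ ≤ θ + c0 := by
      have h1 : ⟪x, y⟫_ℝ = 0 := Submodule.inner_right_of_mem_orthogonal hx hy
      have h2 := norm_add_sq_eq_norm_sq_add_norm_sq_of_inner_eq_zero _ _ h1
      rw [← hxy] at h2
      have h3 : ‖y‖ ≤ ‖∑ j ∈ Finset.Ico r r', z j‖ := by
        by_contra hcon
        push Not at hcon
        nlinarith [norm_nonneg x, norm_nonneg y, norm_nonneg (∑ j ∈ Finset.Ico r r', z j),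
          mul_self_nonneg ‖x‖]
      linarith
    refine real_step (x := ‖∑ j ∈ Finset.Ico p r', z j‖) (g := (g : ℝ))
      (a := ‖∑ j ∈ Finset.Ico p r, z j + x‖) (c := ‖y‖) (α := a + ‖x‖ + c) (θ := θ) (c0 := c0)
      (s := √g) (s' := √((g:ℝ)+1)) (by positivity) rfl rfl (by positivity) hθ hc0
      (norm_nonneg _) (norm_nonneg _) (norm_nonneg _) ?_ hyle hpyth.le ?_
    · have := norm_add_le (∑ j ∈ Finset.Ico p r, z j) x
      linarith
    · push_cast; ring

theorem claim {V : ℕ → Submodule ℝ H} [∀ j, FiniteDimensional ℝ (V j)] {dec : ℕ → H}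
    {A : ℕ → Finset ℕ} (D : NetData V dec A)
    {z : ℕ → H} (hz : ∀ j, z j ∈ V j) {L : ℕ} {N : ℝ} {f B M : ℕ → ℕ} (hf : Monotone f)
    (hB : ∀ t, 1 ≤ B t) (hBs : ∀ t, B (t + 1) = 64 * (B t) ^ 2)
    (hM : ∀ t, M t = 2000 * (B t) ^ 2)
    (hfM : ∀ t, M t * (2 * M (t + 1)) ≤ f (t + 1))
    (hN : ∀ p q m u, m ≤ f p → q ≤ L → Code A m p q u → val dec z L u ≤ N) :
    ∀ k p q t : ℕ, q - p ≤ k → t ≤ p → p ≤ q → q ≤ L → 0 < ‖∑ j ∈ Finset.Ico p q, z j‖ →
      N ≤ B t * ‖∑ j ∈ Finset.Ico p q, z j‖ →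
      ∃ u, Code A (2 * M t) p q u ∧ ‖∑ j ∈ Finset.Ico p q, z j‖ / 16 < val dec z L u := by
  intro k
  induction k with
  | zero =>
    intro p q t hk htp hpq hqL hσ _
    have : p = q := by omega
    subst this
    simp at hσ
  | succ k ih =>
    intro p q t hk htp hpq hqL hσ hNσ
    by_contra hcon
    push Not at hcon
    set σ := ‖∑ j ∈ Finset.Ico p q, z j‖ with hσdef
    have hBt : (1:ℝ) ≤ B t := by exact_mod_cast hB t
    obtain ⟨θ, hθdef⟩ : ∃ θ : ℝ, θ = σ / (64 * B t) := ⟨_, rfl⟩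
    have hθ : 0 < θ := by rw [hθdef]; positivity
    have hσθ : σ = 64 * B t * θ := by rw [hθdef]; field_simp
    have hMR : (M t : ℝ) = 2000 * (B t : ℝ) ^ 2 := by rw [hM]; push_cast; ring
    have hB1 : (B (t + 1) : ℝ) = 64 * (B t : ℝ) ^ 2 := by rw [hBs]; push_cast; ring
    have key : ∀ g : ℕ, g ≤ M t → ∃ r : ℕ, ∃ a c : ℝ, p ≤ r ∧ r ≤ q ∧ 0 ≤ a ∧ 0 ≤ c ∧
        (∃ u, Code A (2 * g) p r u ∧ a / 2 ≤ val dec z L u) ∧
        (∃ u, Code A (2 * g) p r u ∧ c / 2 ≤ val dec z L u) ∧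
        ‖∑ j ∈ Finset.Ico p r, z j‖ ≤ a + c + θ * √g ∧
        (∀ g' : ℕ, g = g' + 1 → ∃ s, p + 1 ≤ s ∧ s ≤ r ∧
          ∃ u, Code A (g' * (2 * M (t + 1))) s r u ∧ g' * (θ / 16) ≤ val dec z L u) := by
      intro g
      induction g with
      | zero =>
        intro _
        refine ⟨p, 0, 0, le_rfl, hpq, le_rfl, le_rfl, ⟨_, Code.zero D.zeroA _ _ _, ?_⟩,
          ⟨_, Code.zero D.zeroA _ _ _, ?_⟩, ?_, ?_⟩
        · simp [val_zero D.dec0]
        · simp [val_zero D.dec0]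
        · simp
        · intro g' hg'; omega
      | succ g ihg =>
        intro hgM
        obtain ⟨r, a, c, hpr, hrq, ha, hc, hua, huc, hS, h4⟩ := ihg (by omega)
        by_cases hex : ∃ r', r < r' ∧ r' ≤ q ∧ θ ≤ ‖∑ j ∈ Finset.Ico r r', z j‖
        · -- greedy piece
          classical
          obtain ⟨hr1, hr2, hr3⟩ := Nat.find_spec hex
          have hmin : ∀ m, m < Nat.find hex → ¬ (r < m ∧ m ≤ q ∧
            θ ≤ ‖∑ j ∈ Finset.Ico r m, z j‖) := fun m hm => Nat.find_min hex hm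
          generalize Nat.find hex = r' at hr1 hr2 hr3 hmin
          obtain ⟨r₀, rfl⟩ : ∃ r₀, r' = r₀ + 1 := ⟨r' - 1, by omega⟩
          have hr0 : ‖∑ j ∈ Finset.Ico r r₀, z j‖ < θ := by
            by_cases h : r < r₀
            · have := hmin r₀ (by omega)
              push Not at this
              exact this h (by omega)
            · have : r₀ = r := by omega
              subst this
              simpa using hθ
          have hS' : ‖∑ j ∈ Finset.Ico r (r₀ + 1), z j‖ ≤ θ + ‖z r₀‖ := by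
            rw [Finset.sum_Ico_succ_top (by omega)]
            exact (norm_add_le _ _).trans (by linarith)
          obtain ⟨a', ha', hua', hSp⟩ := piece D hz hpr (by omega : r ≤ r₀ + 1) (by omega)
            ha hc (norm_nonneg (z r₀)) hθ.le hua hS hS'
          refine ⟨r₀ + 1, a', c + ‖z r₀‖, by omega, hr2, ha', by positivity, hua', ?_, hSp, ?_⟩
          · obtain ⟨u, hu, huv⟩ := huc
            obtain ⟨n, hn, hnx⟩ := D.net r₀ (z r₀) (hz r₀)
            have hcode : Code A 2 r (r₀ + 1) (cc n r₀ (r₀ + 1)) :=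
              (cc_code D.monoA D.zeroA (r₀ + 1) hn).mono le_rfl (by omega) le_rfl
            refine ⟨_, (hu.add hcode hpr (by omega)).mono (by omega) le_rfl le_rfl, ?_⟩
            rw [val_add D.dec0 z L hu hcode, val_cc D.dec0 z n r₀ (by omega)]
            simp only [Nat.Ico_succ_singleton, Finset.sum_singleton]
            linarith
          · intro g' hg'
            have hg'' : g' = g := by omega
            subst hg''
            rcases Nat.eq_zero_or_pos g' with h0 | h0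
            · subst h0
              refine ⟨r₀ + 1, by omega, le_rfl, _, Code.zero D.zeroA _ _ _, ?_⟩
              simp [val_zero D.dec0]
            · obtain ⟨g₁, rfl⟩ : ∃ g₁, g' = g₁ + 1 := ⟨g' - 1, by omega⟩
              obtain ⟨s, hs1, hs2, u, hu, huv⟩ := h4 g₁ rfl
              have hNr : N ≤ B (t + 1) * ‖∑ j ∈ Finset.Ico r (r₀ + 1), z j‖ := by
                calc N ≤ B t * σ := hNσ
                  _ = 64 * (B t : ℝ) ^ 2 * θ := by rw [hσθ]; ring
                  _ ≤ 64 * (B t : ℝ) ^ 2 * ‖∑ j ∈ Finset.Ico r (r₀ + 1), z j‖ := by gcongr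
                  _ = _ := by rw [hB1]
              obtain ⟨v, hv, hvv⟩ := ih r (r₀ + 1) (t + 1) (by omega) (by omega) (by omega)
                (by omega) (hθ.trans_le hr3) hNr
              refine ⟨s, hs1, by omega, _, (hu.add hv hs2 (by omega)).mono ?_ le_rfl le_rfl, ?_⟩
              · rw [add_mul, one_mul]
              · rw [val_add D.dec0 z L hu hv]
                push_cast
                nlinarith [huv, hvv, hr3]
        · -- the end is reached
          exfalso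
          push Not at hex
          have hS' : ‖∑ j ∈ Finset.Ico r q, z j‖ ≤ θ + 0 := by
            rcases hrq.eq_or_lt with h | h
            · subst h; simpa using hθ.le
            · simpa using (hex q h le_rfl).le
          obtain ⟨a', ha', ⟨u, hu, hua'⟩, hSp⟩ := piece D hz hpr hrq hqL
            ha hc le_rfl hθ.le hua hS hS'
          obtain ⟨u', hu', huc'⟩ := huc
          have h1 := hcon u (hu.mono (by omega) le_rfl le_rfl)
          have h2 := hcon u' (hu'.mono (by omega) le_rfl hrq)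
          have h3 : √((g + 1 : ℕ) : ℝ) ≤ 45 * B t := by
            rw [Real.sqrt_le_left (by positivity)]
            have : ((g + 1 : ℕ) : ℝ) ≤ M t := by exact_mod_cast hgM
            nlinarith
          have h4' : θ * √((g + 1 : ℕ) : ℝ) ≤ θ * (45 * B t) := by gcongr
          nlinarith
    obtain ⟨r, a, c, hpr, hrq, ha, hc, -, -, -, h4⟩ := key (M t) le_rfl
    have hMpos : 1 ≤ M t := by
      rw [hM]
      have h2 : 1 ≤ (B t) ^ 2 := Nat.one_le_pow _ _ (hB t)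
      omega
    obtain ⟨g', hg'⟩ : ∃ g', M t = g' + 1 := ⟨M t - 1, by omega⟩
    obtain ⟨s, hs1, hs2, u, hu, huv⟩ := h4 g' hg'
    have hle : g' * (2 * M (t + 1)) ≤ f s := by
      calc g' * (2 * M (t + 1)) ≤ M t * (2 * M (t + 1)) := by gcongr; omega
        _ ≤ f (t + 1) := hfM t
        _ ≤ f s := hf (by omega)
    have h5 := hN s r _ u hle (by omega) hu
    have h6 : (g' : ℝ) = 2000 * (B t : ℝ) ^ 2 - 1 := by
      have : (M t : ℝ) = g' + 1 := by exact_mod_cast hg'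
      linarith
    have h7 : (g' : ℝ) * (θ / 16) ≤ 64 * (B t : ℝ) ^ 2 * θ := by
      calc (g' : ℝ) * (θ / 16) ≤ N := huv.trans h5
        _ ≤ B t * σ := hNσ
        _ = 64 * (B t : ℝ) ^ 2 * θ := by rw [hσθ]; ring
    rw [h6] at h7
    have h8 : (1:ℝ) ≤ (B t : ℝ) ^ 2 := by nlinarith
    nlinarith [mul_le_mul_of_nonneg_right h8 hθ.le]

end Pool.Agent.MP6f388

namespace Pool.Agent.MP6f388

/-- The constants `B_t`. -/
def Bq : ℕ → ℕ
  | 0 => 1
  | t + 1 => 64 * (Bq t) ^ 2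

/-- The constants `M_t`. -/
def Mq (t : ℕ) : ℕ := 2000 * (Bq t) ^ 2

/-- The bound for the number of changes. -/
def fq (t : ℕ) : ℕ := 2 * (Mq t) ^ 2

lemma one_le_Bq : ∀ t, 1 ≤ Bq t
  | 0 => le_rfl
  | t + 1 => by
    have h := Nat.one_le_pow 2 _ (one_le_Bq t)
    simp only [Bq]; omega

lemma Bq_mono : Monotone Bq := by
  refine monotone_nat_of_le_succ fun t => ?_
  have h := one_le_Bq t
  simp only [Bq]
  nlinarith

lemma Mq_mono : Monotone Mq := fun a b h => by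
  unfold Mq
  have := Bq_mono h
  gcongr

lemma fq_mono : Monotone fq := fun a b h => by
  unfold fq
  have := Mq_mono h
  gcongr

theorem main_ineq {H : Type*} [NormedAddCommGroup H] [InnerProductSpace ℝ H]
    {V : ℕ → Submodule ℝ H} [∀ j, FiniteDimensional ℝ (V j)] {dec : ℕ → H}
    {A : ℕ → Finset ℕ} (D : NetData V dec A)
    {z : ℕ → H} (hz : ∀ j, z j ∈ V j) {L : ℕ} {N : ℝ}
    (hN : ∀ p q m u, m ≤ fq p → q ≤ L → Code A m p q u → val dec z L u ≤ N) :
    ‖∑ j ∈ Finset.range L, z j‖ ≤ 16 * N := by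
  have hN0 : 0 ≤ N := by
    have := hN 0 0 0 _ (Nat.zero_le _) (Nat.zero_le _) (Code.zero D.zeroA 0 0 0)
    rwa [val_zero D.dec0] at this
  by_contra hcon
  push Not at hcon
  rw [Finset.range_eq_Ico] at hcon
  have hσ : 0 < ‖∑ j ∈ Finset.Ico 0 L, z j‖ := by linarith
  have hfM : ∀ t, Mq t * (2 * Mq (t + 1)) ≤ fq (t + 1) := by
    intro t
    have h1 : Mq t ≤ Mq (t + 1) := Mq_mono (Nat.le_succ t)
    unfold fq
    nlinarith
  have hNσ : N ≤ (Bq 0 : ℝ) * ‖∑ j ∈ Finset.Ico 0 L, z j‖ := by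
    simp only [Bq, Nat.cast_one, one_mul]
    linarith
  obtain ⟨u, hu, huv⟩ := claim D hz (N := N) fq_mono one_le_Bq (fun _ => rfl) (M := Mq)
    (fun _ => rfl) hfM hN (L - 0) 0 L 0 le_rfl le_rfl (Nat.zero_le _) le_rfl hσ hNσ
  have h2 : 2 * Mq 0 ≤ fq 0 := by decide
  have := hN 0 L _ u h2 le_rfl hu
  linarith

end Pool.Agent.MP6f388
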