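import Mathlib

set_option autoImplicit false
open scoped InnerProductSpace

namespace Pool.Agent.MP6f388

variable {H : Type*} [NormedAddCommGroup H] [InnerProductSpace ℝ H]

/-- The code sequence `u` has at most `m` changes. -/
def Chg (u : ℕ → ℕ) (m : ℕ) : Prop :=
  ∀ T : Finset ℕ, (∀ t ∈ T, u t ≠ u (t + 1)) → T.card ≤ m

/-- Code sequences in the alphabets `A`, supported in `[p,q)`, with at most `m` changes. -/
structure Code (A : ℕ → Finset ℕ) (m p q : ℕ) (u : ℕ → ℕ) : Prop where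
  mem : ∀ j, u j ∈ A j
  supp : ∀ j, u j ≠ 0 → p ≤ j ∧ j < q
  chg : Chg u m

/-- The value of a code against `z`. -/
noncomputable def val (dec : ℕ → H) (z : ℕ → H) (L : ℕ) (u : ℕ → ℕ) : ℝ :=
  ∑ j ∈ Finset.range L, ⟪dec (u j), z j⟫_ℝ

lemma Code.mono {A : ℕ → Finset ℕ} {m m' p p' q q' : ℕ} {u : ℕ → ℕ} (h : Code A m p q u)
    (hm : m ≤ m') (hp : p' ≤ p) (hq : q ≤ q') : Code A m' p' q' u :=
  ⟨h.mem, fun j hj => ⟨hp.trans (h.supp j hj).1, (h.supp j hj).2.trans_le hq⟩,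
    fun T hT => (h.chg T hT).trans hm⟩

lemma Code.zero {A : ℕ → Finset ℕ} (hA0 : ∀ j, 0 ∈ A j) (m p q : ℕ) :
    Code A m p q (fun _ => 0) := by
  refine ⟨hA0, fun j hj => absurd rfl hj, fun T hT => ?_⟩
  have : T = ∅ := by
    apply Finset.eq_empty_of_forall_notMem
    intro t ht
    exact hT t ht rfl
  simp [this]

lemma val_zero {dec : ℕ → H} (h0 : dec 0 = 0) (z : ℕ → H) (L : ℕ) :
    val dec z L (fun _ => 0) = 0 := by
  simp [val, h0]

lemma Code.add {A : ℕ → Finset ℕ} {m m' p r q : ℕ} {u v : ℕ → ℕ}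
    (hu : Code A m p r u) (hv : Code A m' r q v) (hpr : p ≤ r) (hrq : r ≤ q) :
    Code A (m + m') p q (fun j => u j + v j) := by
  refine ⟨fun j => ?_, fun j hj => ?_, fun T hT => ?_⟩
  · by_cases h : u j = 0
    · simpa [h] using hv.mem j
    · have h1 := hu.supp j h
      have h2 : v j = 0 := by
        by_contra h3
        have := hv.supp j h3
        omega
      simpa [h2] using hu.mem j
  · by_cases h : u j = 0
    · have h2 : v j ≠ 0 := by simpa [h] using hj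
      have := hv.supp j h2
      omega
    · have := hu.supp j h
      omega
  · have hsub : T ⊆ (T.filter fun t => u t ≠ u (t+1)) ∪ (T.filter fun t => v t ≠ v (t+1)) := by
      intro t ht
      have h := hT t ht
      simp only [Finset.mem_union, Finset.mem_filter]
      by_contra hcon
      push Not at hcon
      exact h (by rw [hcon.1 ht, hcon.2 ht])
    calc T.card ≤ _ := Finset.card_le_card hsub
      _ ≤ _ := Finset.card_union_le _ _
      _ ≤ m + m' := Nat.add_le_add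
          (hu.chg _ fun t ht => (Finset.mem_filter.1 ht).2)
          (hv.chg _ fun t ht => (Finset.mem_filter.1 ht).2)

lemma val_add {A : ℕ → Finset ℕ} {dec : ℕ → H} (h0 : dec 0 = 0) (z : ℕ → H) (L : ℕ)
    {m m' p r q : ℕ} {u v : ℕ → ℕ}
    (hu : Code A m p r u) (hv : Code A m' r q v) :
    val dec z L (fun j => u j + v j) = val dec z L u + val dec z L v := by
  unfold val
  rw [← Finset.sum_add_distrib]
  refine Finset.sum_congr rfl fun j _ => ?_
  by_cases h : u j = 0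
  · simp [h, h0]
  · have h1 := hu.supp j h
    have h2 : v j = 0 := by
      by_contra h3
      have := hv.supp j h3
      omega
    simp [h2, h0]

/-- constant code on `[p,q)`. -/
def cc (n p q : ℕ) : ℕ → ℕ := fun j => if p ≤ j ∧ j < q then n else 0

lemma cc_code {A : ℕ → Finset ℕ} (hA : Monotone A) (hA0 : ∀ j, 0 ∈ A j) {n p : ℕ} (q : ℕ)
    (hn : n ∈ A p) : Code A 2 p q (cc n p q) := by
  refine ⟨fun j => ?_, fun j hj => ?_, fun T hT => ?_⟩
  · unfold cc; split_ifs with h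
    · exact hA h.1 hn
    · exact hA0 j
  · unfold cc at hj; split_ifs at hj with h
    · exact h
    · exact absurd rfl hj
  · have hsub : T ⊆ {p-1, q-1} := by
      intro t ht
      have h := hT t ht
      unfold cc at h
      simp only [Finset.mem_insert, Finset.mem_singleton]
      by_contra hcon
      push Not at hcon
      apply h
      have : (p ≤ t ∧ t < q) ↔ (p ≤ t+1 ∧ t+1 < q) := by omega
      simp only [this]
    exact (Finset.card_le_card hsub).trans Finset.card_le_two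

lemma val_cc {dec : ℕ → H} (h0 : dec 0 = 0) (z : ℕ → H) {L : ℕ} (n p : ℕ) {q : ℕ} (hq : q ≤ L) :
    val dec z L (cc n p q) = ⟪dec n, ∑ j ∈ Finset.Ico p q, z j⟫_ℝ := by
  unfold val cc
  have h1 : ∀ j, ⟪dec (if p ≤ j ∧ j < q then n else 0), z j⟫_ℝ
      = if p ≤ j ∧ j < q then ⟪dec n, z j⟫_ℝ else 0 := by
    intro j; split_ifs <;> simp [h0]
  simp only [h1]
  rw [← Finset.sum_filter, inner_sum]
  congr 1
  ext j
  simp only [Finset.mem_filter, Finset.mem_range, Finset.mem_Ico]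
  omega

lemma real_step {x a c α θ c0 y s s' : ℝ} {g : ℝ} (hg : 0 ≤ g) (hs : s = √g) (hs' : s' = √(g+1))
    (hα : 0 ≤ α) (hθ : 0 ≤ θ) (hc0 : 0 ≤ c0) (hx : 0 ≤ x) (ha0 : 0 ≤ a) (hc : 0 ≤ c)
    (ha : a ≤ α + θ * s) (hc' : c ≤ θ + c0) (hxx : x ^ 2 ≤ a ^ 2 + c ^ 2)
    (hy : y = α + c0 + θ * s') : x ≤ y := by
  have hs0 : 0 ≤ s := hs ▸ Real.sqrt_nonneg _
  have hss : s * s = g := by rw [hs]; exact Real.mul_self_sqrt hg
  have hss' : s' * s' = g + 1 := by rw [hs']; exact Real.mul_self_sqrt (by linarith)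
  have hle : s ≤ s' := by rw [hs, hs']; exact Real.sqrt_le_sqrt (by linarith)
  have h1 : 1 ≤ s' := by
    rw [hs']
    calc (1:ℝ) = √1 := by simp
      _ ≤ _ := Real.sqrt_le_sqrt (by linarith)
  have hy0 : 0 ≤ y := by rw [hy]; positivity
  have h2 : a ^ 2 ≤ (α + θ * s) ^ 2 := pow_le_pow_left₀ ha0 ha 2
  have h3 : c ^ 2 ≤ (θ + c0) ^ 2 := pow_le_pow_left₀ hc hc' 2
  have h4 : (α + θ * s) ^ 2 + (θ + c0) ^ 2 ≤ y ^ 2 := by
    have e1 : (α + θ * s) ^ 2 + (θ + c0) ^ 2
        = α^2 + 2 * α * θ * s + θ^2 * g + θ^2 + 2 * θ * c0 + c0^2 := by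
      rw [← hss]; ring
    have e2 : y ^ 2 = α^2 + c0^2 + θ^2 * (g + 1) + 2 * α * c0 + 2 * α * θ * s'
        + 2 * c0 * θ * s' := by
      rw [hy, ← hss']; ring
    rw [e1, e2]
    have i1 : 0 ≤ α * θ * (s' - s) := mul_nonneg (mul_nonneg hα hθ) (by linarith)
    have i2 : 0 ≤ c0 * θ * (s' - 1) := mul_nonneg (mul_nonneg hc0 hθ) (by linarith)
    have i3 : 0 ≤ α * c0 := mul_nonneg hα hc0
    nlinarith [i1, i2, i3]
  have h5 : x ^ 2 ≤ y ^ 2 := by linarith
  exact le_of_sq_le_sq' h5 hx hy0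
where
  le_of_sq_le_sq' {x y : ℝ} (h : x ^ 2 ≤ y ^ 2) (_hx : 0 ≤ x) (hy : 0 ≤ y) : x ≤ y := by
    exact le_of_sq_le_sq'' h hy
  le_of_sq_le_sq'' {x y : ℝ} (h : x ^ 2 ≤ y ^ 2) (hy : 0 ≤ y) : x ≤ y :=
    le_trans (le_abs_self x) (by simpa [abs_of_nonneg hy] using sq_le_sq.1 h)

end Pool.Agent.MP6f388
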