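import Mathlib

set_option autoImplicit false
open scoped InnerProductSpace ZeroAtInfty

namespace Pool.Agent.MP6f388

section
variable {H : Type*} [NormedAddCommGroup H] [InnerProductSpace ℝ H]

lemma exists_signs (v : ℕ → H) (n : ℕ) : ∃ ε : ℕ → ℝ, (∀ i, |ε i| ≤ 1) ∧
    ∑ i ∈ Finset.range n, ‖v i‖ ^ 2 ≤ ‖∑ i ∈ Finset.range n, ε i • v i‖ ^ 2 := by
  induction n with
  | zero => exact ⟨fun _ => 0, by simp, by simp⟩
  | succ n ih =>
    obtain ⟨ε, hε, h⟩ := ih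
    obtain ⟨w, hw⟩ : ∃ w, w = ∑ i ∈ Finset.range n, ε i • v i := ⟨_, rfl⟩
    rw [← hw] at h
    obtain ⟨s, hs1, hs2, hs3⟩ : ∃ s : ℝ, |s| ≤ 1 ∧ s ^ 2 = 1 ∧ 0 ≤ s * ⟪w, v n⟫_ℝ := by
      rcases le_total 0 ⟪w, v n⟫_ℝ with h0 | h0
      · exact ⟨1, by simp, by norm_num, by simpa using h0⟩
      · exact ⟨-1, by simp, by norm_num, by simpa using h0⟩
    refine ⟨fun i => if i < n then ε i else s, fun i => ?_, ?_⟩
    · simp only; split_ifs
      · exact hε i
      · exact hs1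
    · rw [Finset.sum_range_succ, Finset.sum_range_succ]
      have h1 : ∑ i ∈ Finset.range n, (if i < n then ε i else s) • v i = w := by
        rw [hw]
        refine Finset.sum_congr rfl fun i hi => ?_
        rw [if_pos (Finset.mem_range.1 hi)]
      have h2 : (fun i => if i < n then ε i else s) n = s := by simp
      rw [h1, h2, norm_add_sq_real, inner_smul_right, norm_smul, mul_pow,
        Real.norm_eq_abs, sq_abs, hs2]
      linarith

/-- The sequence space element `∑_{i<n} ε_i e_i` of `c₀`. -/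
noncomputable def es (ε : ℕ → ℝ) (s : Finset ℕ) : C₀(ℕ, ℝ) where
  toFun := fun k => if k ∈ s then ε k else 0
  continuous_toFun := continuous_of_discreteTopology
  zero_at_infty' := by
    rw [Filter.cocompact_eq_cofinite]
    refine tendsto_const_nhds.congr' ?_
    have : (s : Set ℕ)ᶜ ∈ Filter.cofinite := s.finite_toSet.compl_mem_cofinite
    filter_upwards [this] with k hk
    rw [if_neg (by simpa using hk)]

lemma es_apply (ε : ℕ → ℝ) (s : Finset ℕ) (k : ℕ) : es ε s k = if k ∈ s then ε k else 0 := rfl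

lemma norm_es_le {ε : ℕ → ℝ} (hε : ∀ i, |ε i| ≤ 1) (s : Finset ℕ) : ‖es ε s‖ ≤ 1 := by
  rw [← ZeroAtInftyContinuousMap.norm_toBCF_eq_norm, BoundedContinuousFunction.norm_le zero_le_one]
  intro k
  change ‖es ε s k‖ ≤ 1
  rw [es_apply]
  split_ifs
  · exact hε k
  · simp

lemma one_le_norm_es (i : ℕ) : 1 ≤ ‖es (fun _ => 1) {i}‖ := by
  rw [← ZeroAtInftyContinuousMap.norm_toBCF_eq_norm]
  have := BoundedContinuousFunction.norm_coe_le_norm (es (fun _ => 1) {i}).toBCF i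
  have h2 : (es (fun _ => 1) {i}).toBCF i = 1 := by
    change es (fun _ => 1) {i} i = 1
    rw [es_apply]; simp
  rw [h2] at this
  simpa using this

lemma es_range (ε : ℕ → ℝ) (n : ℕ) :
    es ε (Finset.range n) = ∑ i ∈ Finset.range n, ε i • es (fun _ => 1) {i} := by
  induction n with
  | zero =>
    ext k
    simp [es_apply]
  | succ n ih =>
    rw [Finset.sum_range_succ, ← ih]
    ext k
    rw [ZeroAtInftyContinuousMap.add_apply, ZeroAtInftyContinuousMap.smul_apply, es_apply,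
      es_apply, es_apply]
    simp only [Finset.mem_range, Finset.mem_singleton, smul_eq_mul]
    by_cases h1 : k = n
    · subst h1; simp
    · by_cases h2 : k < n
      · simp [h1, h2, show k < n + 1 by omega]
      · simp [h1, h2, show ¬ k < n + 1 by omega]

variable {D : Type*} [AddCommGroup D] [Module ℝ D]

theorem no_c0 {X : Type*} [NormedAddCommGroup X] [NormedSpace ℝ X] (Ψ : D →ₗ[ℝ] X)
    (R : D →ₗ[ℝ] H) (hlow : ∀ y, ‖R y‖ ≤ 16 * ‖Ψ y‖) (hup : ∀ y, ‖Ψ y‖ ≤ ‖R y‖)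
    (S : C₀(ℕ, ℝ) →L[ℝ] X) (hS : ∀ f, S f ∈ (LinearMap.range Ψ).topologicalClosure)
    (c : ℝ) (hc : 0 < c) (hcS : ∀ f, c * ‖f‖ ≤ ‖S f‖) : False := by
  obtain ⟨n, hn⟩ := exists_nat_gt (1024 * (‖S‖ + 1) ^ 2 / c ^ 2)
  obtain ⟨δ, hδ, hδc, hδn⟩ : ∃ δ : ℝ, 0 < δ ∧ δ ≤ c / 2 ∧ n * δ ≤ 1 := by
    refine ⟨min (c / 2) (1 / (n + 1)), by positivity, min_le_left _ _, ?_⟩
    calc (n:ℝ) * min (c / 2) (1 / (n + 1)) ≤ n * (1 / (n + 1)) := by
          gcongr; exact min_le_right _ _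
      _ ≤ 1 := by
          rw [mul_one_div, div_le_one (by positivity)]; linarith
  have happ : ∀ i : ℕ, ∃ y : D, ‖S (es (fun _ => 1) {i}) - Ψ y‖ < δ := by
    intro i
    have h1 := hS (es (fun _ => 1) {i})
    rw [← SetLike.mem_coe, Submodule.topologicalClosure_coe, Metric.mem_closure_iff] at h1
    obtain ⟨_, ⟨y, rfl⟩, hy⟩ := h1 δ hδ
    exact ⟨y, by rwa [dist_eq_norm] at hy⟩
  choose y hy using happ
  obtain ⟨ε, hε, hsum⟩ := exists_signs (fun i => R (y i)) n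
  have hR : ∀ i, c / 2 ≤ ‖R (y i)‖ := by
    intro i
    have h1 : c ≤ ‖S (es (fun _ => 1) {i})‖ :=
      (le_mul_of_one_le_right hc.le (one_le_norm_es i)).trans (hcS _)
    have h2 : ‖S (es (fun _ => 1) {i})‖ ≤ ‖S (es (fun _ => 1) {i}) - Ψ (y i)‖ + ‖Ψ (y i)‖ := by
      simpa using norm_add_le (S (es (fun _ => 1) {i}) - Ψ (y i)) (Ψ (y i))
    have := hy i
    have := hup (y i)
    linarith
  have hlower : (n : ℝ) * (c / 2) ^ 2 ≤ ∑ i ∈ Finset.range n, ‖R (y i)‖ ^ 2 := by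
    have : ∑ i ∈ Finset.range n, (c / 2) ^ 2 ≤ ∑ i ∈ Finset.range n, ‖R (y i)‖ ^ 2 :=
      Finset.sum_le_sum fun i _ => pow_le_pow_left₀ (by positivity) (hR i) 2
    simpa using this
  have hmap : ∑ i ∈ Finset.range n, ε i • R (y i) = R (∑ i ∈ Finset.range n, ε i • y i) := by
    simp [map_sum]
  have hΨ : ‖Ψ (∑ i ∈ Finset.range n, ε i • y i)‖ ≤ ‖S‖ + 1 := by
    have h1 : Ψ (∑ i ∈ Finset.range n, ε i • y i) = S (es ε (Finset.range n))
        - ∑ i ∈ Finset.range n, ε i • (S (es (fun _ => 1) {i}) - Ψ (y i)) := by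
      rw [es_range, map_sum, map_sum]
      simp only [map_smul, smul_sub, Finset.sum_sub_distrib]
      abel
    have h2 : ‖S (es ε (Finset.range n))‖ ≤ ‖S‖ := by
      refine (S.le_opNorm _).trans ?_
      exact mul_le_of_le_one_right (norm_nonneg _) (norm_es_le hε _)
    have h3 : ‖∑ i ∈ Finset.range n, ε i • (S (es (fun _ => 1) {i}) - Ψ (y i))‖ ≤ n * δ := by
      refine (norm_sum_le _ _).trans ?_
      have : ∑ i ∈ Finset.range n, ‖ε i • (S (es (fun _ => 1) {i}) - Ψ (y i))‖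
          ≤ ∑ i ∈ Finset.range n, δ := by
        refine Finset.sum_le_sum fun i _ => ?_
        rw [norm_smul, Real.norm_eq_abs]
        calc |ε i| * ‖S (es (fun _ => 1) {i}) - Ψ (y i)‖ ≤ 1 * δ := by
              gcongr
              · exact hε i
              · exact (hy i).le
          _ = δ := one_mul _
      simpa using this
    rw [h1]
    refine (norm_sub_le _ _).trans ?_
    linarith
  have hfin : (n : ℝ) * (c / 2) ^ 2 ≤ (16 * (‖S‖ + 1)) ^ 2 := by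
    calc (n : ℝ) * (c / 2) ^ 2 ≤ ‖∑ i ∈ Finset.range n, ε i • R (y i)‖ ^ 2 := hlower.trans hsum
      _ ≤ (16 * (‖S‖ + 1)) ^ 2 := by
        rw [hmap]
        refine pow_le_pow_left₀ (norm_nonneg _) ?_ 2
        refine (hlow _).trans ?_
        gcongr
  rw [div_lt_iff₀ (by positivity)] at hn
  nlinarith

theorem not_finiteDimensional {X : Type*} [NormedAddCommGroup X] [NormedSpace ℝ X]
    (Ψ : D →ₗ[ℝ] X) (R : D →ₗ[ℝ] H) (hlow : ∀ y, ‖R y‖ ≤ 16 * ‖Ψ y‖)
    (y : ℕ → D) (hy : LinearIndependent ℝ fun i => R (y i)) :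
    ¬ FiniteDimensional ℝ (LinearMap.range Ψ).topologicalClosure := by
  intro hfd
  have h1 : LinearIndependent ℝ (fun i => Ψ (y i)) := by
    rw [linearIndependent_iff'] at hy ⊢
    intro s g hg
    apply hy s g
    have h2 := hlow (∑ i ∈ s, g i • y i)
    have h3 : Ψ (∑ i ∈ s, g i • y i) = 0 := by
      rw [map_sum]; simpa using hg
    rw [h3, norm_zero, mul_zero] at h2
    have h4 : R (∑ i ∈ s, g i • y i) = 0 := by
      rw [← norm_eq_zero]; exact le_antisymm h2 (norm_nonneg _)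
    rw [map_sum] at h4
    simpa using h4
  have h2 : LinearIndependent ℝ (fun i => (⟨Ψ (y i),
      (LinearMap.range Ψ).le_topologicalClosure ⟨y i, rfl⟩⟩ :
        (LinearMap.range Ψ).topologicalClosure)) := by
    apply LinearIndependent.of_comp (LinearMap.range Ψ).topologicalClosure.subtype
    exact h1
  have h3 := h2.finite_of_isNoetherian
  exact not_finite ℕ

variable {E : Type*} [NormedAddCommGroup E] [NormedSpace ℝ E]

lemma quot_lower (Φ : D →ₗ[ℝ] E) (R : D →ₗ[ℝ] H) (h : ∀ y, ‖R y‖ ≤ 16 * ‖Φ y‖) (y : D) :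
    ‖R y‖ ≤ 16 * ‖(Submodule.Quotient.mk (Φ y) :
      E ⧸ ((LinearMap.ker R).map Φ).topologicalClosure)‖ := by
  refine le_of_forall_pos_le_add fun ε hε => ?_
  obtain ⟨m, hm1, hm2⟩ := Submodule.Quotient.norm_mk_lt
    (Submodule.Quotient.mk (Φ y) : E ⧸ ((LinearMap.ker R).map Φ).topologicalClosure)
    (show 0 < ε / 32 by positivity)
  rw [Submodule.Quotient.eq, ← SetLike.mem_coe, Submodule.topologicalClosure_coe,
    Metric.mem_closure_iff] at hm1
  obtain ⟨_, ⟨y', hy', rfl⟩, hd⟩ := hm1 (ε / 32) (by positivity)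
  rw [dist_eq_norm] at hd
  have h1 : R y = R (y + y') := by
    rw [map_add, show R y' = 0 from hy', add_zero]
  have h2 : ‖Φ (y + y')‖ ≤ ‖m‖ + ‖m - Φ y - Φ y'‖ := by
    have : Φ (y + y') = m - (m - Φ y - Φ y') := by rw [map_add]; abel
    rw [this]
    exact norm_sub_le _ _
  have h3 := h (y + y')
  rw [h1]
  linarith

lemma quot_upper (Φ : D →ₗ[ℝ] E) (R : D →ₗ[ℝ] H)
    (h : ∀ y, ∃ y', R y' = R y ∧ ‖Φ y'‖ ≤ ‖R y‖) (y : D) :
    ‖(Submodule.Quotient.mk (Φ y) :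
      E ⧸ ((LinearMap.ker R).map Φ).topologicalClosure)‖ ≤ ‖R y‖ := by
  obtain ⟨y', h1, h2⟩ := h y
  have h3 : (Submodule.Quotient.mk (Φ y) : E ⧸ ((LinearMap.ker R).map Φ).topologicalClosure)
      = Submodule.Quotient.mk (Φ y') := by
    rw [Submodule.Quotient.eq]
    refine Submodule.le_topologicalClosure _ ⟨y - y', ?_, by simp⟩
    change R (y - y') = 0
    rw [map_sub, h1, sub_self]
  rw [h3]
  exact (Submodule.Quotient.norm_mk_le _ _).trans h2

theorem exists_quot {D : Type*} [AddCommGroup D] [Module ℝ D]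
    {E : Type} [NormedAddCommGroup E] [NormedSpace ℝ E] [CompleteSpace E]
    (Φ : D →ₗ[ℝ] E) (R : D →ₗ[ℝ] H) (hlow : ∀ y, ‖R y‖ ≤ 16 * ‖Φ y‖)
    (hlift : ∀ y, ∃ y', R y' = R y ∧ ‖Φ y'‖ ≤ ‖R y‖) :
    ∃ (X : Type) (_ : NormedAddCommGroup X) (_ : NormedSpace ℝ X) (_ : CompleteSpace X)
      (π : E →L[ℝ] X), Function.Surjective π ∧ (∀ y, ‖R y‖ ≤ 16 * ‖π (Φ y)‖) ∧
        (∀ y, ‖π (Φ y)‖ ≤ ‖R y‖) := by
  have hFc : IsClosed (((LinearMap.ker R).map Φ).topologicalClosure : Set E) :=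
    Submodule.isClosed_topologicalClosure _
  refine ⟨E ⧸ ((LinearMap.ker R).map Φ).topologicalClosure, inferInstance, inferInstance,
    inferInstance, ((LinearMap.ker R).map Φ).topologicalClosure.mkQL,
    Submodule.Quotient.mk_surjective _, fun y => quot_lower Φ R hlow y,
    fun y => quot_upper Φ R hlift y⟩

theorem final_abstract {D : Type*} [AddCommGroup D] [Module ℝ D]
    {E : Type} [NormedAddCommGroup E] [NormedSpace ℝ E] [CompleteSpace E]
    (Φ : D →ₗ[ℝ] E) (R : D →ₗ[ℝ] H) (hlow : ∀ y, ‖R y‖ ≤ 16 * ‖Φ y‖)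
    (hlift : ∀ y, ∃ y', R y' = R y ∧ ‖Φ y'‖ ≤ ‖R y‖)
    (y : ℕ → D) (hy : LinearIndependent ℝ fun i => R (y i)) :
    ¬ (∀ (X : Type) [NormedAddCommGroup X] [NormedSpace ℝ X] [CompleteSpace X],
      (∃ T : E →L[ℝ] X, Function.Surjective T) →
      ∀ Y : Submodule ℝ X, IsClosed (Y : Set X) → ¬ FiniteDimensional ℝ Y →
        ∃ S : C₀(ℕ, ℝ) →L[ℝ] X, (∀ f, S f ∈ Y) ∧
          ∃ c : ℝ, 0 < c ∧ ∀ f, c * ‖f‖ ≤ ‖S f‖) := by
  intro hall
  obtain ⟨X, iX1, iX2, iX3, π, hπ, h1, h2⟩ := exists_quot Φ R hlow hlift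
  obtain ⟨S, hS, c, hc, hcS⟩ := hall X ⟨π, hπ⟩
    (LinearMap.range (π.toLinearMap ∘ₗ Φ)).topologicalClosure
    (Submodule.isClosed_topologicalClosure _)
    (not_finiteDimensional (π.toLinearMap ∘ₗ Φ) R h1 y hy)
  exact no_c0 (π.toLinearMap ∘ₗ Φ) R h1 h2 S hS c hc hcS

end

end Pool.Agent.MP6f388
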