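import Pool.Agent.MP6f388.Space
import Pool.Agent.MP6f388.Quot
import Mathlib.Analysis.InnerProductSpace.l2Space

set_option autoImplicit false
open scoped InnerProductSpace ZeroAtInfty

namespace Pool.Agent.MP6f388

section
variable {H : Type} [NormedAddCommGroup H] [InnerProductSpace ℝ H]

/-- One column. -/
noncomputable def phi (dec : ℕ → H) (A : ℕ → Finset ℕ) (f : ℕ → ℕ) (j : ℕ) :
    H →ₗ[ℝ] C(KSet A f, ℝ) where
  toFun v := ⟨fun κ => ⟪dec (κ.1 j), v⟫_ℝ, by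
    have h1 : Continuous (fun n : ℕ => ⟪dec n, v⟫_ℝ) := continuous_of_discreteTopology
    exact h1.comp ((continuous_apply j).comp continuous_subtype_val)⟩
  map_add' v w := by
    ext κ
    simp [inner_add_right]
  map_smul' a v := by
    ext κ
    simp [inner_smul_right]

lemma phi_apply (dec : ℕ → H) (A : ℕ → Finset ℕ) (f : ℕ → ℕ) (j : ℕ) (v : H)
    (κ : KSet A f) : phi dec A f j v κ = ⟪dec (κ.1 j), v⟫_ℝ := rfl

noncomputable def Phi (dec : ℕ → H) (A : ℕ → Finset ℕ) (f : ℕ → ℕ) :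
    (ℕ →₀ H) →ₗ[ℝ] C(KSet A f, ℝ) :=
  Finsupp.lsum ℝ (phi dec A f)

lemma Phi_apply (dec : ℕ → H) (A : ℕ → Finset ℕ) (f : ℕ → ℕ) (y : ℕ →₀ H) {L : ℕ}
    (hL : ∀ j, y j ≠ 0 → j < L) (κ : KSet A f) :
    Phi dec A f y κ = val dec y L κ.1 := by
  unfold Phi val
  rw [Finsupp.lsum_apply, Finsupp.sum, ContinuousMap.sum_apply]
  have hsub : y.support ⊆ Finset.range L := fun j hj =>
    Finset.mem_range.2 (hL j (Finsupp.mem_support_iff.1 hj))
  rw [← Finset.sum_subset hsub]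
  · rfl
  · intro j _ hj
    rw [Finsupp.notMem_support_iff] at hj
    simp [hj]

noncomputable def Rmap (H : Type) [NormedAddCommGroup H] [InnerProductSpace ℝ H] :
    (ℕ →₀ H) →ₗ[ℝ] H :=
  Finsupp.lsum ℝ (fun _ => LinearMap.id)

lemma Rmap_apply (y : ℕ →₀ H) {L : ℕ} (hL : ∀ j, y j ≠ 0 → j < L) :
    Rmap H y = ∑ j ∈ Finset.range L, y j := by
  unfold Rmap
  rw [Finsupp.lsum_apply, Finsupp.sum]
  have hsub : y.support ⊆ Finset.range L := fun j hj =>
    Finset.mem_range.2 (hL j (Finsupp.mem_support_iff.1 hj))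
  rw [← Finset.sum_subset hsub]
  · rfl
  · intro j _ hj
    rw [Finsupp.notMem_support_iff] at hj
    simp [hj]

/-- The submodule of finitely supported sequences with `y j ∈ V j`. -/
def Dsub (V : ℕ → Submodule ℝ H) : Submodule ℝ (ℕ →₀ H) where
  carrier := {y | ∀ j, y j ∈ V j}
  add_mem' ha hb j := (V j).add_mem (ha j) (hb j)
  zero_mem' j := (V j).zero_mem
  smul_mem' c _ ha j := (V j).smul_mem c (ha j)

omit [InnerProductSpace ℝ H] in
lemma exists_bound (y : ℕ →₀ H) : ∃ L, ∀ j, y j ≠ 0 → j < L := by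
  refine ⟨y.support.sup id + 1, fun j hj => ?_⟩
  have := Finset.le_sup (f := id) (Finsupp.mem_support_iff.2 hj)
  simp only [id] at this
  omega

theorem R_le_Phi {V : ℕ → Submodule ℝ H} [∀ j, FiniteDimensional ℝ (V j)] {dec : ℕ → H}
    {A : ℕ → Finset ℕ} [CompactSpace (KSet A fq)] (ND : NetData V dec A) (y : ℕ →₀ H)
    (hy : y ∈ Dsub V) : ‖Rmap H y‖ ≤ 16 * ‖Phi dec A fq y‖ := by
  obtain ⟨L, hL⟩ := exists_bound y
  rw [Rmap_apply y hL]
  refine main_ineq ND hy fun p q m u hm hq hu => ?_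
  have h1 := hu.mem_KSet fq_mono hm
  rw [← Phi_apply dec A fq y hL ⟨u, h1⟩]
  exact (le_abs_self _).trans ((Phi dec A fq y).norm_coe_le_norm ⟨u, h1⟩)

theorem lift {V : ℕ → Submodule ℝ H} [∀ j, FiniteDimensional ℝ (V j)] {dec : ℕ → H}
    {A : ℕ → Finset ℕ} [CompactSpace (KSet A fq)] (ND : NetData V dec A)
    (hdec : ∀ n, ‖dec n‖ ≤ 1) (y : ℕ →₀ H)
    (hy : y ∈ Dsub V) : ∃ y' ∈ Dsub V, Rmap H y' = Rmap H y ∧
      ‖Phi dec A fq y'‖ ≤ ‖Rmap H y‖ := by
  obtain ⟨L, hL⟩ := exists_bound y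
  have hmem : Rmap H y ∈ V L := by
    rw [Rmap_apply y hL]
    exact Submodule.sum_mem _ fun j hj => ND.monoV (Finset.mem_range.1 hj).le (hy j)
  refine ⟨Finsupp.single L (Rmap H y), fun j => ?_, ?_, ?_⟩
  · rw [Finsupp.single_apply]
    split_ifs with h
    · rw [← h]; exact hmem
    · exact (V j).zero_mem
  · simp [Rmap]
  · rw [ContinuousMap.norm_le _ (norm_nonneg _)]
    intro κ
    have : Phi dec A fq (Finsupp.single L (Rmap H y)) κ = ⟪dec (κ.1 L), Rmap H y⟫_ℝ := by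
      simp [Phi, phi_apply]
    rw [this]
    refine (norm_inner_le_norm _ _).trans ?_
    exact mul_le_of_le_one_left (norm_nonneg _) (hdec _)

end

end Pool.Agent.MP6f388
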