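import Pool.Agent.MP6f388.Claim

set_option autoImplicit false
open scoped InnerProductSpace

namespace Pool.Agent.MP6f388

/-- The countable compact set of codes. -/
def KSet (A : ℕ → Finset ℕ) (f : ℕ → ℕ) : Set (ℕ → ℕ) :=
  {κ | (∀ j, κ j ∈ A j) ∧ ∀ J, ∀ T : Finset ℕ, κ J ≠ 0 →
    (∀ t ∈ T, J ≤ t ∧ κ t ≠ κ (t + 1)) → T.card ≤ f J}

lemma isCompact_KSet (A : ℕ → Finset ℕ) (f : ℕ → ℕ) : IsCompact (KSet A f) := by
  have h1 : IsCompact (Set.pi Set.univ fun j => ((A j : Finset ℕ) : Set ℕ)) :=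
    isCompact_univ_pi fun j => (A j).finite_toSet.isCompact
  refine h1.of_isClosed_subset ?_ fun κ hκ j _ => hκ.1 j
  unfold KSet
  simp only [Set.ofPred_and, Set.ofPred_forall]
  refine IsClosed.inter (isClosed_iInter fun j => ?_) (isClosed_iInter fun J =>
    isClosed_iInter fun T => ?_)
  · exact (isClosed_discrete ((A j : Finset ℕ) : Set ℕ)).preimage (continuous_apply j)
  · refine isClosed_imp ?_ (isClosed_imp ?_ isClosed_const)
    · have : IsOpen ((fun x : ℕ → ℕ => x J) ⁻¹' ({0}ᶜ : Set ℕ)) :=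
        (isOpen_discrete _).preimage (continuous_apply J)
      exact this
    · have : {x : ℕ → ℕ | ∀ t ∈ T, J ≤ t ∧ x t ≠ x (t + 1)}
          = ⋂ t ∈ T, {x : ℕ → ℕ | J ≤ t ∧ x t ≠ x (t + 1)} := by
        ext x; simp
      rw [this]
      refine isOpen_biInter_finset fun t _ => ?_
      have h2 : Continuous fun x : ℕ → ℕ => (x t, x (t+1)) :=
        (continuous_apply t).prodMk (continuous_apply (t+1))
      exact (isOpen_discrete {y : ℕ × ℕ | J ≤ t ∧ y.1 ≠ y.2}).preimage h2

lemma eventually_const_KSet {A : ℕ → Finset ℕ} {f : ℕ → ℕ} {κ : ℕ → ℕ} (hκ : κ ∈ KSet A f) :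
    ∃ J c, ∀ j, J ≤ j → κ j = c := by
  by_cases h0 : ∀ J, κ J = 0
  · exact ⟨0, 0, fun j _ => h0 j⟩
  · push Not at h0
    obtain ⟨J, hJ⟩ := h0
    have hfin : {t | J ≤ t ∧ κ t ≠ κ (t + 1)}.Finite := by
      by_contra hinf
      obtain ⟨T, hT, hcard⟩ := Set.Infinite.exists_subset_card_eq hinf (f J + 1)
      have := hκ.2 J T hJ fun t ht => hT ht
      omega
    obtain ⟨b, hb⟩ := hfin.bddAbove
    refine ⟨max J (b + 1), κ (max J (b + 1)), fun j hj => ?_⟩
    induction j, hj using Nat.le_induction with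
    | base => rfl
    | succ j hj ih =>
      by_contra hne
      have h1 : j ∈ {t | J ≤ t ∧ κ t ≠ κ (t + 1)} := by
        refine ⟨(le_max_left _ _).trans hj, fun h => hne ?_⟩
        rw [← h, ih]
      have h2 := hb h1
      have h3 : b + 1 ≤ j := (le_max_right _ _).trans hj
      omega

lemma countable_KSet (A : ℕ → Finset ℕ) (f : ℕ → ℕ) : (KSet A f).Countable := by
  have h : KSet A f ⊆ ⋃ J : ℕ, ⋃ c : ℕ, Set.range
      (fun (g : Fin J → ℕ) (j : ℕ) => if h : j < J then g ⟨j, h⟩ else c) := by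
    intro κ hκ
    obtain ⟨J, c, hJ⟩ := eventually_const_KSet hκ
    simp only [Set.mem_iUnion, Set.mem_range]
    refine ⟨J, c, fun i => κ i, ?_⟩
    ext j
    split_ifs with h
    · rfl
    · exact (hJ j (by omega)).symm
  refine Set.Countable.mono h ?_
  exact Set.countable_iUnion fun J => Set.countable_iUnion fun c => Set.countable_range _

/-- A code with at most `f p` changes supported in `[p,q)` lies in `KSet`. -/
lemma Code.mem_KSet {A : ℕ → Finset ℕ} {f : ℕ → ℕ} (hf : Monotone f) {m p q : ℕ} {u : ℕ → ℕ}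
    (hu : Code A m p q u) (hm : m ≤ f p) : u ∈ KSet A f := by
  refine ⟨hu.mem, fun J T hJ hT => ?_⟩
  calc T.card ≤ m := hu.chg T fun t ht => (hT t ht).2
    _ ≤ f p := hm
    _ ≤ f J := hf (hu.supp J hJ).1

/-- existence of net data for any increasing sequence of finite-dimensional subspaces. -/
theorem exists_netData {H : Type*} [NormedAddCommGroup H] [InnerProductSpace ℝ H]
    (V : ℕ → Submodule ℝ H) [∀ j, FiniteDimensional ℝ (V j)] (hV : Monotone V) :
    ∃ (dec : ℕ → H) (A : ℕ → Finset ℕ), NetData V dec A ∧ ∀ n, ‖dec n‖ ≤ 1 := by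
  classical
  have h1 : ∀ j, ∃ N : Finset H, (∀ w ∈ N, w ∈ V j ∧ ‖w‖ ≤ 1) ∧
      ∀ v ∈ V j, ‖v‖ = 1 → ∃ w ∈ N, 1 / 2 ≤ ⟪w, v⟫_ℝ := by
    intro j
    have hcpt : IsCompact (Metric.sphere (0 : V j) 1) := isCompact_sphere _ _
    obtain ⟨t, hts, htf, htc⟩ := hcpt.finite_cover_balls (e := 1 / 2) (by norm_num)
    refine ⟨htf.toFinset.image (fun w : V j => (w : H)), ?_, ?_⟩
    · intro w hw
      simp only [Finset.mem_image, Set.Finite.mem_toFinset] at hw
      obtain ⟨w', hw', rfl⟩ := hw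
      refine ⟨w'.2, ?_⟩
      have := hts hw'
      simp only [mem_sphere_iff_norm, sub_zero] at this
      rw [← Submodule.coe_norm] 
      exact this.le
    · intro v hv hv1
      have hv' : (⟨v, hv⟩ : V j) ∈ Metric.sphere (0 : V j) 1 := by
        simp only [mem_sphere_iff_norm, sub_zero]
        exact hv1
      have := htc hv'
      simp only [Set.mem_iUnion, Metric.mem_ball, exists_prop] at this
      obtain ⟨w, hw, hwv⟩ := this
      refine ⟨w, ?_, ?_⟩
      · simp only [Finset.mem_image, Set.Finite.mem_toFinset]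
        exact ⟨w, hw, rfl⟩
      · have hw1 : ‖(w : H)‖ = 1 := by
          have := hts hw
          simp only [mem_sphere_iff_norm, sub_zero] at this
          exact this
        have hd : ‖v - (w : H)‖ ≤ 1 / 2 := by
          rw [dist_eq_norm] at hwv
          exact hwv.le
        have h1 : ⟪(w : H), v⟫_ℝ = ⟪(w : H), (w : H)⟫_ℝ + ⟪(w : H), v - w⟫_ℝ := by
          rw [← inner_add_right]; congr 1; abel
        have h2 : ⟪(w : H), (w : H)⟫_ℝ = 1 := by
          rw [real_inner_self_eq_norm_sq, hw1]; norm_num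
        have h3 : |⟪(w : H), v - w⟫_ℝ| ≤ ‖(w : H)‖ * ‖v - (w : H)‖ := abs_real_inner_le_norm _ _
        rw [hw1, one_mul] at h3
        have h4 := (abs_le.1 (h3.trans hd)).1
        rw [h1, h2]
        linarith
  choose N hN1 hN2 using h1
  have hcount : (insert (0:H) (⋃ j, (N j : Set H))).Countable :=
    (Set.countable_iUnion fun j => (N j).countable_toSet).insert 0
  obtain ⟨g, hg⟩ := hcount.exists_eq_range ⟨0, Set.mem_insert _ _⟩
  -- decoding
  let dec : ℕ → H := fun n => if n = 0 then 0 else g (n - 1)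
  have hdec : ∀ w, (∃ j, w ∈ N j) → ∃ n, dec n = w := by
    rintro w ⟨j, hj⟩
    have : w ∈ Set.range g := by
      rw [← hg]
      exact Set.mem_insert_of_mem _ (Set.mem_iUnion.2 ⟨j, hj⟩)
    obtain ⟨n, hn⟩ := this
    exact ⟨n + 1, by simp [dec, hn]⟩
  have hdec' : ∀ w : H, ∃ n, (∃ j, w ∈ N j) → dec n = w := by
    intro w
    by_cases h : ∃ j, w ∈ N j
    · obtain ⟨n, hn⟩ := hdec w h
      exact ⟨n, fun _ => hn⟩
    · exact ⟨0, fun h' => absurd h' h⟩
  choose c hc using hdec'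
  refine ⟨dec, fun j => insert 0 ((Finset.range (j + 1)).biUnion fun i => (N i).image c),
    ⟨hV, by simp [dec], ?_, fun j => Finset.mem_insert_self _ _, ?_, ?_⟩, ?_⟩
  · intro j j' hjj
    refine Finset.insert_subset_insert _ (Finset.biUnion_subset_biUnion_of_subset_left _ ?_)
    intro x hx
    simp only [Finset.mem_range] at hx ⊢
    omega
  · intro j n hn
    simp only [Finset.mem_insert, Finset.mem_biUnion, Finset.mem_range, Finset.mem_image] at hn
    rcases hn with rfl | ⟨i, hi, w, hw, rfl⟩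
    · simp [dec]
    · rw [hc w ⟨i, hw⟩]
      exact hV (by omega) (hN1 i w hw).1
  · intro j v hv
    by_cases h0 : v = 0
    · exact ⟨0, Finset.mem_insert_self _ _, by simp [h0]⟩
    · have hpos : 0 < ‖v‖ := norm_pos_iff.2 h0
      obtain ⟨w, hw, hwv⟩ := hN2 j (‖v‖⁻¹ • v) ((V j).smul_mem _ hv) (by
        rw [norm_smul, norm_inv, norm_norm]; exact inv_mul_cancel₀ hpos.ne')
      refine ⟨c w, ?_, ?_⟩
      · simp only [Finset.mem_insert, Finset.mem_biUnion, Finset.mem_range, Finset.mem_image]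
        exact Or.inr ⟨j, by omega, w, hw, rfl⟩
      · rw [hc w ⟨j, hw⟩]
        rw [inner_smul_right] at hwv
        have h5 : ‖v‖ * (1 / 2) ≤ ‖v‖ * (‖v‖⁻¹ * ⟪w, v⟫_ℝ) := by gcongr
        rw [← mul_assoc, mul_inv_cancel₀ hpos.ne', one_mul] at h5
        linarith
  · intro n
    by_cases hn : n = 0
    · simp [dec, hn]
    · have h6 : dec n ∈ insert (0:H) (⋃ j, (N j : Set H)) := by
        rw [hg]; simp [dec, hn]
      rcases h6 with h | h
      · rw [h]; simp
      · obtain ⟨j, hj⟩ := Set.mem_iUnion.1 h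
        exact (hN1 j _ hj).2

end Pool.Agent.MP6f388
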